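import Pool.Agent.W360.BQ.Stm

/-! Project BQ, block V: the torus as an instance of the abstract Galerkin scheme with variable
coefficients. -/

set_option autoImplicit false

namespace Pool.Agent.W360.BQ.Conc

open Pool.Agent.W360.BQ MeasureTheory Set Filter Topology
open Pool.Agent.W488.IW hiding Dat sm smI Vf VN VI pr Sol Conv S_ODE S_EN S_COMP S_LIM S_LEQ S_STR
  S_TAIL S_CONC
open scoped ComplexConjugate ENNReal

/-! ### multiplication operators -/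

section mul

variable {Ω : Type} [MeasurableSpace Ω] {μ : Measure Ω}

theorem mem_mul (g : Ω → ℂ) (hg : AEStronglyMeasurable g μ) (C : ℝ) (hb : ∀ x, ‖g x‖ ≤ C)
    (f : Lp ℂ 2 μ) : MemLp (fun x => g x * f x) 2 μ := by
  refine (Lp.memLp f).of_le_mul (c := C) (hg.mul (Lp.memLp f).1) (Eventually.of_forall fun x => ?_)
  rw [norm_mul]
  exact mul_le_mul_of_nonneg_right (hb x) (norm_nonneg _)

/-- multiplication by a bounded function -/
noncomputable def mulL (g : Ω → ℂ) (hg : AEStronglyMeasurable g μ) (C : ℝ) (hC : 0 ≤ C)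
    (hb : ∀ x, ‖g x‖ ≤ C) : Lp ℂ 2 μ →L[ℂ] Lp ℂ 2 μ :=
  LinearMap.mkContinuous
    { toFun := fun f => (mem_mul g hg C hb f).toLp _
      map_add' := by
        intro f g
        rw [← MemLp.toLp_add, MemLp.toLp_eq_toLp_iff]
        filter_upwards [Lp.coeFn_add f g] with x hx
        simp only [hx, Pi.add_apply, mul_add]
      map_smul' := by
        intro c f
        simp only [RingHom.id_apply]
        rw [← MemLp.toLp_const_smul, MemLp.toLp_eq_toLp_iff]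
        filter_upwards [Lp.coeFn_smul c f] with x hx
        simp only [hx, Pi.smul_apply, smul_eq_mul]
        ring } C (by
      intro f
      have h := Lp.norm_le_mul_norm_of_ae_le_mul (c := C)
        (f := (mem_mul g hg C hb f).toLp (fun x => g x * f x)) (g := f) (by
          filter_upwards [(mem_mul g hg C hb f).coeFn_toLp] with x hx
          rw [hx, norm_mul]
          exact mul_le_mul_of_nonneg_right (hb x) (norm_nonneg _))
      exact h)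

theorem mulL_coe (g : Ω → ℂ) (hg : AEStronglyMeasurable g μ) (C : ℝ) (hC : 0 ≤ C)
    (hb : ∀ x, ‖g x‖ ≤ C) (f : Lp ℂ 2 μ) : mulL g hg C hC hb f =ᵐ[μ] fun x => g x * f x :=
  (mem_mul g hg C hb f).coeFn_toLp

theorem norm_mulL_le (g : Ω → ℂ) (hg : AEStronglyMeasurable g μ) (C : ℝ) (hC : 0 ≤ C)
    (hb : ∀ x, ‖g x‖ ≤ C) : ‖mulL (μ := μ) g hg C hC hb‖ ≤ C :=
  LinearMap.mkContinuous_norm_le _ hC _

theorem adjoint_mulL (g : Ω → ℂ) (hg : AEStronglyMeasurable g μ) (C : ℝ) (hC : 0 ≤ C)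
    (hb : ∀ x, ‖g x‖ ≤ C)
    (hg' : AEStronglyMeasurable (fun x => conj (g x)) μ) (hb' : ∀ x, ‖conj (g x)‖ ≤ C) :
    (mulL g hg C hC hb).adjoint = mulL (fun x => conj (g x)) hg' C hC hb' := by
  symm
  rw [ContinuousLinearMap.eq_adjoint_iff]
  intro u v
  rw [L2.inner_def, L2.inner_def]
  apply integral_congr_ae
  filter_upwards [mulL_coe g hg C hC hb v, mulL_coe (fun x => conj (g x)) hg' C hC hb' u]
    with x h1 h2
  rw [h1, h2]
  simp only [RCLike.inner_apply, map_mul, Complex.conj_conj]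
  ring

theorem re_inner_mulL (g : Ω → ℝ) (hg : AEStronglyMeasurable (fun x => (g x : ℂ)) μ) (C : ℝ)
    (hC : 0 ≤ C) (hb : ∀ x, ‖(g x : ℂ)‖ ≤ C) (n : ℝ) (hn : ∀ x, n ≤ g x) (v : Lp ℂ 2 μ) :
    n * ‖v‖ ^ 2 ≤ (inner ℂ v (mulL (fun x => (g x : ℂ)) hg C hC hb v) : ℂ).re := by
  have hint : Integrable (fun x => ‖v x‖ ^ 2) μ := (Lp.memLp v).integrable_norm_pow (by norm_num)
  have hv : ‖v‖ ^ 2 = ∫ x, ‖v x‖ ^ 2 ∂μ := by
    have h1 : ((‖v‖ ^ 2 : ℝ) : ℂ) = inner ℂ v v := by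
      rw [inner_self_eq_norm_sq_to_K (𝕜 := ℂ) v]; norm_cast
    have h2 : ((‖v‖ ^ 2 : ℝ) : ℂ) = ((∫ x, ‖v x‖ ^ 2 ∂μ : ℝ) : ℂ) := by
      rw [h1, L2.inner_def, ← integral_complex_ofReal]
      apply integral_congr_ae
      filter_upwards with x
      rw [inner_self_eq_norm_sq_to_K]
      norm_cast
    exact_mod_cast h2
  have hin : (inner ℂ v (mulL (fun x => (g x : ℂ)) hg C hC hb v) : ℂ)
      = ((∫ x, g x * ‖v x‖ ^ 2 ∂μ : ℝ) : ℂ) := by
    rw [L2.inner_def, ← integral_complex_ofReal]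
    apply integral_congr_ae
    filter_upwards [mulL_coe (fun x => (g x : ℂ)) hg C hC hb v] with x hx
    rw [hx, RCLike.inner_apply]
    have := Complex.mul_conj (v x)
    rw [Complex.normSq_eq_norm_sq] at this
    push_cast at this ⊢
    rw [mul_assoc, this]
  rw [hin, Complex.ofReal_re, hv, ← integral_const_mul]
  refine integral_mono_ae (hint.const_mul n) ?_ (Eventually.of_forall fun x =>
    mul_le_mul_of_nonneg_right (hn x) (by positivity))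
  have hgm : AEStronglyMeasurable g μ := by
    have := hg.norm
    have h2 : AEStronglyMeasurable (fun x => ((g x : ℂ)).re) μ :=
      Complex.continuous_re.comp_aestronglyMeasurable hg
    simpa using h2
  refine hint.bdd_mul (c := C) hgm (Eventually.of_forall fun x => ?_)
  have := hb x
  rwa [Complex.norm_real] at this

end mul

/-- a bounded Lipschitz coefficient -/
structure Co (G : ℂ × ℂ → ℂ) (C L : ℝ) : Prop where
  C0 : 0 ≤ C
  L0 : 0 ≤ L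
  b : ∀ F, ‖G F‖ ≤ C
  l : ∀ F F', ‖G F - G F'‖ ≤ L * (‖F.1 - F'.1‖ + ‖F.2 - F'.2‖)

theorem Co.conj {G : ℂ × ℂ → ℂ} {C L : ℝ} (h : Co G C L) : Co (fun F => conj (G F)) C L :=
  ⟨h.C0, h.L0, fun F => by rw [RCLike.norm_conj]; exact h.b F, fun F F' => by
    rw [← map_sub, RCLike.norm_conj]; exact h.l F F'⟩

theorem Co.cont {G : ℂ × ℂ → ℂ} {C L : ℝ} (h : Co G C L) : Continuous G := by
  have hL := h.L0
  have : LipschitzWith (Real.toNNReal (2 * L)) G := by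
    refine LipschitzWith.of_dist_le_mul fun F F' => ?_
    rw [dist_eq_norm, dist_eq_norm, Real.coe_toNNReal _ (by positivity)]
    have h1 : ‖F.1 - F'.1‖ ≤ ‖F - F'‖ := norm_fst_le (F - F')
    have h2 : ‖F.2 - F'.2‖ ≤ ‖F - F'‖ := norm_snd_le (F - F')
    calc ‖G F - G F'‖ ≤ L * (‖F.1 - F'.1‖ + ‖F.2 - F'.2‖) := h.l F F'
      _ ≤ L * (‖F - F'‖ + ‖F - F'‖) := by gcongr
      _ = 2 * L * ‖F - F'‖ := by ring
  exact this.continuous

/-! ### the instance on a space with a basis of unimodular functions -/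

section inst

variable {Ω : Type} [MeasurableSpace Ω] {μ : Measure Ω}

theorem coef_meas {G : ℂ × ℂ → ℂ} {C L : ℝ} (h : Co G C L) (a b : Lp ℂ 2 μ) :
    AEStronglyMeasurable (fun x => G (a x, b x)) μ :=
  h.cont.comp_aestronglyMeasurable ((Lp.memLp a).1.prodMk (Lp.memLp b).1)

/-- the coefficient operator -/
noncomputable def gO {G : ℂ × ℂ → ℂ} {C L : ℝ} (h : Co G C L) (a b : Lp ℂ 2 μ) :
    Lp ℂ 2 μ →L[ℂ] Lp ℂ 2 μ :=
  mulL (fun x => G (a x, b x)) (coef_meas h a b) C h.C0 (fun _ => h.b _)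

theorem gO_adj {G : ℂ × ℂ → ℂ} {C L : ℝ} (h : Co G C L) (a b : Lp ℂ 2 μ) :
    (gO h a b).adjoint = gO h.conj a b :=
  adjoint_mulL _ _ _ _ _ _ _

/-- norms of pointwise bounded functions -/
theorem norm_bound (f a b : Lp ℂ 2 μ) (L : ℝ) (hL : 0 ≤ L)
    (h : ∀ᵐ x ∂μ, ‖f x‖ ≤ L * (‖a x‖ + ‖b x‖)) : ‖f‖ ≤ L * (‖a‖ + ‖b‖) := by
  have h1 : eLpNorm f 2 μ ≤ ENNReal.ofReal L * (eLpNorm a 2 μ + eLpNorm b 2 μ) := by
    have h2 : eLpNorm f 2 μ ≤ eLpNorm (fun x => L * (‖a x‖ + ‖b x‖)) 2 μ := by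
      apply eLpNorm_mono_ae
      filter_upwards [h] with x hx
      rw [Real.norm_of_nonneg (by positivity)]
      exact hx
    refine h2.trans ?_
    have h3 : (fun x => L * (‖a x‖ + ‖b x‖)) = L • ((fun x => ‖a x‖) + fun x => ‖b x‖) := by
      funext x; simp
    rw [h3, eLpNorm_const_smul, Real.enorm_of_nonneg hL]
    refine mul_le_mul_right ?_ _
    refine (eLpNorm_add_le (Lp.memLp a).1.norm (Lp.memLp b).1.norm (by norm_num)).trans ?_
    rw [eLpNorm_norm, eLpNorm_norm]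
  have ha := (Lp.memLp a).2.ne
  have hb := (Lp.memLp b).2.ne
  rw [Lp.norm_def, Lp.norm_def, Lp.norm_def, ← ENNReal.toReal_add ha hb,
    ← ENNReal.toReal_ofReal hL, ← ENNReal.toReal_mul]
  exact ENNReal.toReal_mono (ENNReal.mul_ne_top ENNReal.ofReal_ne_top
    (ENNReal.add_ne_top.2 ⟨ha, hb⟩)) h1

theorem lip_aux {G : ℂ × ℂ → ℂ} {C L : ℝ} (h : Co G C L) (E : Ω → ℂ) (hE : ∀ x, ‖E x‖ = 1)
    (v : Lp ℂ 2 μ) (hv : v =ᵐ[μ] E) (a b a' b' : Lp ℂ 2 μ) :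
    ‖gO h a b v - gO h a' b' v‖ ≤ L * (‖a - a'‖ + ‖b - b'‖) := by
  apply norm_bound _ _ _ _ h.L0
  filter_upwards [hv, Lp.coeFn_sub (gO h a b v) (gO h a' b' v), Lp.coeFn_sub a a',
    Lp.coeFn_sub b b', mulL_coe _ (coef_meas h a b) C h.C0 (fun _ => h.b _) v,
    mulL_coe _ (coef_meas h a' b') C h.C0 (fun _ => h.b _) v] with x h1 h2 h3 h4 h5 h6
  rw [h2, h3, h4]
  simp only [Pi.sub_apply]
  unfold gO
  rw [h5, h6, ← sub_mul, norm_mul, h1, hE, mul_one]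
  exact h.l _ _

/-- the coefficients, with common constants -/
structure Cs (s : ℂ × ℂ → ℂ) (m : ℂ × ℂ → ℝ) (n M L : ℝ) : Prop where
  hn : 2 < n
  cs : Co s 1 L
  cm : Co (fun F => (m F : ℂ)) M L
  hm : ∀ F, n ≤ m F

/-- the data -/
noncomputable def dat {s : ℂ × ℂ → ℂ} {m : ℂ × ℂ → ℝ} {n M L : ℝ} (h : Cs s m n M L)
    (E : Idx → Ω → ℂ) (hE : ∀ k x, ‖E k x‖ = 1) (b : HilbertBasis Idx ℂ (Lp ℂ 2 μ))
    (hb : ∀ k, b k =ᵐ[μ] E k) : Dat (Lp ℂ 2 μ) where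
  e := b
  s := gO h.cs
  m := gO h.cm
  n := n
  M := M
  L := L
  hn := h.hn
  h1 := fun _ _ => norm_mulL_le _ _ _ _ _
  h2 := fun a c a' c' k => lip_aux h.cs (E k) (hE k) (b k) (hb k) a c a' c'
  h3 := fun a c a' c' k => by
    rw [gO_adj, gO_adj]
    exact lip_aux h.cs.conj (E k) (hE k) (b k) (hb k) a c a' c'
  c1 := fun _ _ => norm_mulL_le _ _ _ _ _
  c2 := fun a c v => re_inner_mulL (fun x => m (a x, c x)) (coef_meas h.cm a c) M h.cm.C0
    (fun _ => h.cm.b _) n (fun _ => h.hm _) v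
  c3 := fun a c a' c' k => lip_aux h.cm (E k) (hE k) (b k) (hb k) a c a' c'
  c4 := fun a c => by
    rw [gO_adj]
    unfold gO
    congr 1
    funext x
    exact Complex.conj_ofReal _

/-- trigonometric polynomial on `Ω` -/
noncomputable def tpΩ (E : Idx → Ω → ℂ) (Λ : Finset Idx) (w c : Idx → ℂ) (x : Ω) : ℂ :=
  ∑ k ∈ Λ, w k * c k * E k x

theorem sum_coe (E : Idx → Ω → ℂ) (b : HilbertBasis Idx ℂ (Lp ℂ 2 μ))
    (hb : ∀ k, b k =ᵐ[μ] E k) (Λ : Finset Idx) (u : Idx → ℂ) :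
    (∑ k ∈ Λ, u k • b k : Lp ℂ 2 μ) =ᵐ[μ] fun x => ∑ k ∈ Λ, u k * E k x := by
  classical
  induction Λ using Finset.induction_on with
  | empty =>
    simp only [Finset.sum_empty]
    exact Lp.coeFn_zero ℂ 2 μ
  | insert k Λ hk ih =>
    rw [Finset.sum_insert hk]
    filter_upwards [Lp.coeFn_add (u k • b k) (∑ k ∈ Λ, u k • b k), ih,
      Lp.coeFn_smul (u k) (b k), hb k] with x h1 h2 h3 h4
    rw [h1, Pi.add_apply, h2, h3, Pi.smul_apply, h4, smul_eq_mul, Finset.sum_insert hk]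

/-- velocity on `Ω` -/
noncomputable def VΩ (s : ℂ × ℂ → ℂ) (m : ℂ × ℂ → ℝ) (E : Idx → Ω → ℂ) (Λ : Finset Idx)
    (c : Idx → ℂ) (x : Ω) : ℂ :=
  Vg s m (tpΩ E Λ ka c x, tpΩ E Λ kb c x) (tpΩ E Λ (fun k => ka k ^ 2) c x)
    (tpΩ E Λ (fun k => ka k * kb k) c x) (tpΩ E Λ (fun k => kb k ^ 2) c x)

theorem VN_coe {s : ℂ × ℂ → ℂ} {m : ℂ × ℂ → ℝ} {n M L : ℝ} (h : Cs s m n M L) (E : Idx → Ω → ℂ)
    (hE : ∀ k x, ‖E k x‖ = 1) (b : HilbertBasis Idx ℂ (Lp ℂ 2 μ))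
    (hb : ∀ k, b k =ᵐ[μ] E k) (Λ : Finset Idx) (c : Idx → ℂ) :
    ((VN (dat h E hE b hb) Λ c : Lp ℂ 2 μ) : Ω → ℂ) =ᵐ[μ] VΩ s m E Λ c := by
  have hs : ∀ w : Idx → ℂ, (sm (dat h E hE b hb) Λ w c : Lp ℂ 2 μ) =ᵐ[μ]
      fun x => tpΩ E Λ w c x := fun w => sum_coe E b hb Λ fun k => w k * c k
  have h1 := hs ka
  have h2 := hs kb
  have h3 := hs fun k => ka k ^ 2
  have h4 := hs fun k => ka k * kb k
  have h5 := hs fun k => kb k ^ 2
  unfold VN Vf
  set A := sm (dat h E hE b hb) Λ ka c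
  set B := sm (dat h E hE b hb) Λ kb c
  set P := sm (dat h E hE b hb) Λ (fun k => ka k ^ 2) c
  set Q := sm (dat h E hE b hb) Λ (fun k => ka k * kb k) c
  set R := sm (dat h E hE b hb) Λ (fun k => kb k ^ 2) c
  change ((gO h.cm A B Q + gO h.cs A B P + (gO h.cs A B).adjoint R : Lp ℂ 2 μ) : Ω → ℂ) =ᵐ[μ] _
  rw [gO_adj]
  filter_upwards [h1, h2, h3, h4, h5, Lp.coeFn_add (gO h.cm A B Q + gO h.cs A B P)
      (gO h.cs.conj A B R),
    Lp.coeFn_add (gO h.cm A B Q) (gO h.cs A B P),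
    mulL_coe _ (coef_meas h.cm A B) M h.cm.C0 (fun _ => h.cm.b _) Q,
    mulL_coe _ (coef_meas h.cs A B) 1 h.cs.C0 (fun _ => h.cs.b _) P,
    mulL_coe _ (coef_meas h.cs.conj A B) 1 h.cs.conj.C0 (fun _ => h.cs.conj.b _) R]
    with x h1 h2 h3 h4 h5 h6 h7 h8 h9 h10
  rw [h6, Pi.add_apply, h7, Pi.add_apply]
  unfold gO
  rw [h8, h9, h10, h1, h2, h3, h4, h5]
  rfl

theorem inner_VN {s : ℂ × ℂ → ℂ} {m : ℂ × ℂ → ℝ} {n M L : ℝ} (h : Cs s m n M L)
    (E : Idx → Ω → ℂ)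
    (hE : ∀ k x, ‖E k x‖ = 1) (b : HilbertBasis Idx ℂ (Lp ℂ 2 μ))
    (hb : ∀ k, b k =ᵐ[μ] E k) (Λ : Finset Idx) (c : Idx → ℂ) (k : Idx) :
    (inner ℂ ((dat h E hE b hb).e k) (VN (dat h E hE b hb) Λ c) : ℂ)
      = ∫ x, conj (E k x) * VΩ s m E Λ c x ∂μ := by
  rw [L2.inner_def]
  apply integral_congr_ae
  have h2 : ((dat h E hE b hb).e k : Lp ℂ 2 μ) =ᵐ[μ] E k := hb k
  filter_upwards [VN_coe h E hE b hb Λ c, h2] with x h1 h2
  rw [h1, h2, RCLike.inner_apply, mul_comm]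

theorem norm_sq_eq (f : Lp ℂ 2 μ) (g : Ω → ℂ) (h : f =ᵐ[μ] g) : ‖f‖ ^ 2 = ∫ x, ‖g x‖ ^ 2 ∂μ := by
  have h1 : ((‖f‖ ^ 2 : ℝ) : ℂ) = inner ℂ f f := by
    rw [inner_self_eq_norm_sq_to_K (𝕜 := ℂ) f]; norm_cast
  have h2 : ((‖f‖ ^ 2 : ℝ) : ℂ) = ((∫ x, ‖g x‖ ^ 2 ∂μ : ℝ) : ℂ) := by
    rw [h1, L2.inner_def, ← integral_complex_ofReal]
    apply integral_congr_ae
    filter_upwards [h] with x hx
    rw [hx, inner_self_eq_norm_sq_to_K]
    norm_cast
  exact_mod_cast h2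

theorem norm_sub_pr {s : ℂ × ℂ → ℂ} {m : ℂ × ℂ → ℝ} {n M L : ℝ} (h : Cs s m n M L)
    (E : Idx → Ω → ℂ)
    (hE : ∀ k x, ‖E k x‖ = 1) (b : HilbertBasis Idx ℂ (Lp ℂ 2 μ))
    (hb : ∀ k, b k =ᵐ[μ] E k) (Λ Λ' : Finset Idx) (c : Idx → ℂ) :
    ‖VN (dat h E hE b hb) Λ c
        - pr (dat h E hE b hb) Λ' (VN (dat h E hE b hb) Λ c)‖ ^ 2
      = ∫ x, ‖VΩ s m E Λ c x
        - ∑ k ∈ Λ', (∫ y, conj (E k y) * VΩ s m E Λ c y ∂μ) * E k x‖ ^ 2 ∂μ := by
  apply norm_sq_eq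
  unfold pr
  have h1 := sum_coe E b hb Λ' fun k =>
    (inner ℂ ((dat h E hE b hb).e k) (VN (dat h E hE b hb) Λ c) : ℂ)
  have h1' : ((∑ k ∈ Λ', (inner ℂ ((dat h E hE b hb).e k)
      (VN (dat h E hE b hb) Λ c) : ℂ) • (dat h E hE b hb).e k : Lp ℂ 2 μ) : Ω → ℂ)
      =ᵐ[μ] fun x => ∑ k ∈ Λ', (∫ y, conj (E k y) * VΩ s m E Λ c y ∂μ) * E k x := by
    refine h1.trans (Eventually.of_forall fun x => ?_)
    refine Finset.sum_congr rfl fun k _ => ?_
    rw [inner_VN]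
  filter_upwards [VN_coe h E hE b hb Λ c, h1', Lp.coeFn_sub
    (VN (dat h E hE b hb) Λ c) (∑ k ∈ Λ', (inner ℂ ((dat h E hE b hb).e k)
      (VN (dat h E hE b hb) Λ c) : ℂ) • (dat h E hE b hb).e k)] with x h1 h2 h3
  rw [h3, Pi.sub_apply, h1, h2]

end inst

/-! ### the torus -/

section torus

open UnitAddTorus

/-- In this file we normalise the measure on `ℝ / ℤ` to have total volume 1. -/
noncomputable local instance : MeasureSpace UnitAddCircle := ⟨AddCircle.haarAddCircle⟩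

local instance : Measure.IsAddHaarMeasure (volume : Measure UnitAddCircle) :=
  inferInstanceAs (Measure.IsAddHaarMeasure AddCircle.haarAddCircle)

local instance : IsProbabilityMeasure (volume : Measure UnitAddCircle) :=
  inferInstanceAs (IsProbabilityMeasure AddCircle.haarAddCircle)

/-- the torus -/
abbrev TT := UnitAddTorus (Fin 2)

/-- the frequency vector -/
def fv (k : Idx) : Fin 2 → ℤ := ![k.1, k.2]

theorem fv_inj : Function.Injective fv := by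
  intro k l h
  have h0 := congrFun h 0
  have h1 := congrFun h 1
  simp [fv] at h0 h1
  exact Prod.ext h0 h1

theorem fv_surj : Function.Surjective fv := fun m => ⟨(m 0, m 1), by
  funext i; fin_cases i <;> simp [fv]⟩

/-- the exponentials on the torus -/
noncomputable def ET (k : Idx) (x : TT) : ℂ := mFourier (fv k) x

theorem norm_ET (k : Idx) (x : TT) : ‖ET k x‖ = 1 := by
  unfold ET mFourier
  simp only [ContinuousMap.coe_mk, norm_prod, fourier_apply, Circle.norm_coe,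
    Finset.prod_const_one]

theorem ET_coe (k : Idx) (x : V) : ET k (fun i => (x i : UnitAddCircle)) = ek k x := by
  unfold ET mFourier ek fv
  simp only [ContinuousMap.coe_mk, Fin.prod_univ_two, fourier_coe_apply, Matrix.cons_val_zero,
    Matrix.cons_val_one, Complex.ofReal_one, div_one]
  rw [← Complex.exp_add]
  congr 1
  ring

theorem on_T : Orthonormal ℂ (fun k : Idx => (mFourierLp 2 (fv k) : Lp ℂ 2 (volume : Measure TT))) :=
  (orthonormal_mFourier (d := Fin 2)).comp fv fv_inj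

/-- the basis -/
noncomputable def bT : HilbertBasis Idx ℂ (Lp ℂ 2 (volume : Measure TT)) :=
  HilbertBasis.mk on_T (by
    have h := (span_mFourierLp_closure_eq_top (d := Fin 2) (p := 2) (by simp)).ge
    have h2 : Set.range (fun k : Idx => (mFourierLp 2 (fv k) : Lp ℂ 2 (volume : Measure TT)))
        = Set.range (mFourierLp (d := Fin 2) 2) := by
      ext y
      constructor
      · rintro ⟨k, rfl⟩; exact ⟨fv k, rfl⟩
      · rintro ⟨m, rfl⟩
        obtain ⟨k, rfl⟩ := fv_surj m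
        exact ⟨k, rfl⟩
    rw [h2]
    exact h)

theorem bT_coe (k : Idx) : ((bT k : Lp ℂ 2 (volume : Measure TT)) : TT → ℂ) =ᵐ[volume] ET k := by
  have h : bT k = mFourierLp 2 (fv k) := congrFun (HilbertBasis.coe_mk on_T _) k
  rw [h]
  exact coeFn_mFourierLp 2 (fv k)

theorem int_T {F : Type} [NormedAddCommGroup F] [NormedSpace ℝ F] (f : TT → F) (g : V → F)
    (h : ∀ x : V, f (fun i => (x i : UnitAddCircle)) = g x) :
    ∫ x : TT, f x = ∫ x in Icc (0 : V) 1, g x := by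
  rw [integral_preimage f 0]
  have h1 : {x : V | ∀ i, x i ∈ Ioc ((0 : V) i) ((0 : V) i + 1)}
      = Set.pi univ fun i => Ioc ((0 : V) i) ((1 : V) i) := by
    ext x; simp
  have h2 : (Set.pi univ fun i => Ioc ((0 : V) i) ((1 : V) i)) =ᵐ[(volume : Measure V)]
      Icc (0 : V) 1 := Measure.univ_pi_Ioc_ae_eq_Icc
  rw [h1, setIntegral_congr_set h2]
  simp only [h]

theorem tp_coe (Λ : Finset Idx) (w c : Idx → ℂ) (x : V) :
    tpΩ ET Λ w c (fun i => (x i : UnitAddCircle)) = tp Λ w c x := by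
  unfold tpΩ tp
  refine Finset.sum_congr rfl fun k _ => ?_
  rw [ET_coe]

theorem V_coe (s : ℂ × ℂ → ℂ) (m : ℂ × ℂ → ℝ) (Λ : Finset Idx) (c : Idx → ℂ) (x : V) :
    VΩ s m ET Λ c (fun i => (x i : UnitAddCircle)) = Vh s m Λ c x := by
  unfold VΩ Vh gd pp qq rr
  simp only [tp_coe]

/-- common constants -/
theorem exists_Cs {s : ℂ × ℂ → ℂ} {m : ℂ × ℂ → ℝ} {n : ℝ} (h : Cf s m n) :
    ∃ M L, Cs s m n M L := by
  obtain ⟨M, hM⟩ := h.hM
  obtain ⟨L1, hL1⟩ := h.sl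
  obtain ⟨L2, hL2⟩ := h.ml
  have hn := h.hn
  have hmax : ∀ F F' : ℂ × ℂ, ‖F - F'‖ ≤ ‖F.1 - F'.1‖ + ‖F.2 - F'.2‖ := fun F F' => by
    rw [Prod.norm_def]
    exact max_le_add_of_nonneg (norm_nonneg _) (norm_nonneg _)
  have key : ∀ (L' x : ℝ) (F F' : ℂ × ℂ), x ≤ L' * ‖F - F'‖ →
      L' ≤ |L1| + |L2| → x ≤ (|L1| + |L2|) * (‖F.1 - F'.1‖ + ‖F.2 - F'.2‖) := by
    intro L' x F F' hx hL
    calc x ≤ L' * ‖F - F'‖ := hx
      _ ≤ (|L1| + |L2|) * ‖F - F'‖ := mul_le_mul_of_nonneg_right hL (norm_nonneg _)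
      _ ≤ _ := mul_le_mul_of_nonneg_left (hmax F F') (by positivity)
  refine ⟨M, |L1| + |L2|, hn, ⟨zero_le_one, by positivity, h.hs, fun F F' => ?_⟩,
    ⟨?_, by positivity, fun F => ?_, fun F F' => ?_⟩, h.hm⟩
  · exact key L1 _ F F' (hL1 F F') (by linarith [le_abs_self L1, abs_nonneg L2])
  · have := h.hm 0
    have := hM 0
    linarith
  · rw [Complex.norm_real, Real.norm_eq_abs, abs_of_nonneg (by linarith [h.hm F])]
    exact hM F
  · rw [← Complex.ofReal_sub, Complex.norm_real, Real.norm_eq_abs]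
    exact key L2 _ F F' (hL2 F F') (by linarith [le_abs_self L2, abs_nonneg L1])

/-- **BQ-V-CONC** -/
theorem main : S_CONC := by
  intro s m n hcf
  obtain ⟨M, L, h⟩ := exists_Cs hcf
  have hI : ∀ (Λ : Finset Idx) (c : Idx → ℂ) (k : Idx),
      ∫ x, conj (ET k x) * VΩ s m ET Λ c x
        = ∫ x in Icc (0 : V) 1, (starRingEnd ℂ) (ek k x) * Vh s m Λ c x := fun Λ c k =>
    int_T _ _ fun x => by rw [ET_coe, V_coe]
  refine ⟨Lp ℂ 2 _, inferInstance, inferInstance, inferInstance,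
    dat h ET norm_ET bT bT_coe, rfl, ?_, ?_⟩
  · intro Λ c k
    rw [inner_VN]
    exact hI Λ c k
  · intro Λ Λ' c
    rw [norm_sub_pr]
    refine int_T _ _ fun x => ?_
    rw [V_coe]
    congr 2
    congr 1
    refine Finset.sum_congr rfl fun k _ => ?_
    rw [hI, ET_coe]

end torus

end Pool.Agent.W360.BQ.Conc
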