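import Pool.Agent.W488.IW.Stm

/-! Project BQ, block V: the quasilinear flow with a variable coefficient of `u_{z zbar}`.
The definitions of the abstract Galerkin scheme are those of `Pool.Agent.W488.IW.Defs`, with the
number `n` replaced by a self-adjoint operator `m a b ≥ n`. -/

set_option autoImplicit false

namespace Pool.Agent.W360.BQ

open MeasureTheory Set Filter Topology
open Pool.Agent.W488.IW hiding Dat sm smI Vf VN VI pr Sol Conv S_ODE S_EN S_COMP S_LIM S_LEQ S_STR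
  S_TAIL

/-- The data of the abstract flow `u' = m(a,b) q + s(a,b) p + s(a,b)^* r`. -/
structure Dat (H : Type) [NormedAddCommGroup H] [InnerProductSpace ℂ H] [CompleteSpace H] where
  e : HilbertBasis Idx ℂ H
  s : H → H → H →L[ℂ] H
  m : H → H → H →L[ℂ] H
  n : ℝ
  M : ℝ
  L : ℝ
  hn : 2 < n
  h1 : ∀ a b, ‖s a b‖ ≤ 1
  h2 : ∀ a b a' b' k, ‖s a b (e k) - s a' b' (e k)‖ ≤ L * (‖a - a'‖ + ‖b - b'‖)
  h3 : ∀ a b a' b' k, ‖(s a b).adjoint (e k) - (s a' b').adjoint (e k)‖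
        ≤ L * (‖a - a'‖ + ‖b - b'‖)
  c1 : ∀ a b, ‖m a b‖ ≤ M
  c2 : ∀ a b v, n * ‖v‖ ^ 2 ≤ (inner ℂ v (m a b v) : ℂ).re
  c3 : ∀ a b a' b' k, ‖m a b (e k) - m a' b' (e k)‖ ≤ L * (‖a - a'‖ + ‖b - b'‖)
  c4 : ∀ a b, (m a b).adjoint = m a b

section abs

variable {H : Type} [NormedAddCommGroup H] [InnerProductSpace ℂ H] [CompleteSpace H]

/-- finite Fourier sums -/
noncomputable def sm (D : Dat H) (Λ : Finset Idx) (w c : Idx → ℂ) : H :=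
  ∑ k ∈ Λ, (w k * c k) • D.e k

/-- infinite Fourier sums -/
noncomputable def smI (D : Dat H) (w c : Idx → ℂ) : H := ∑' k, (w k * c k) • D.e k

/-- the right hand side -/
noncomputable def Vf (D : Dat H) (a b p q r : H) : H :=
  D.m a b q + D.s a b p + (D.s a b).adjoint r

/-- the right hand side at a trigonometric polynomial -/
noncomputable def VN (D : Dat H) (Λ : Finset Idx) (c : Idx → ℂ) : H :=
  Vf D (sm D Λ ka c) (sm D Λ kb c) (sm D Λ (fun k => ka k ^ 2) c)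
    (sm D Λ (fun k => ka k * kb k) c) (sm D Λ (fun k => kb k ^ 2) c)

/-- the right hand side at an infinite Fourier series -/
noncomputable def VI (D : Dat H) (c : Idx → ℂ) : H :=
  Vf D (smI D ka c) (smI D kb c) (smI D (fun k => ka k ^ 2) c)
    (smI D (fun k => ka k * kb k) c) (smI D (fun k => kb k ^ 2) c)

/-- orthogonal projection onto the modes in `Λ` -/
noncomputable def pr (D : Dat H) (Λ : Finset Idx) (v : H) : H :=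
  ∑ k ∈ Λ, (inner ℂ (D.e k) v) • D.e k

/-- Galerkin solution on `[0,T]` -/
def Sol (D : Dat H) (N : ℕ) (T : ℝ) (c0 : Idx → ℂ) (c : ℝ → Idx → ℂ) : Prop :=
  c 0 = c0 ∧ (∀ t, ∀ k, k ∉ box N → c t k = 0) ∧
  ∀ k ∈ box N, ∀ t ∈ Icc (0 : ℝ) T,
    HasDerivWithinAt (fun t => c t k) (inner ℂ (D.e k : H) (VN D (box N) (c t))) (Icc 0 T) t

end abs

/-! ### abstract Galerkin scheme -/

def S_ODE : Prop := ∀ (H : Type) [NormedAddCommGroup H] [InnerProductSpace ℂ H] [CompleteSpace H]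
  (D : Dat H) (N : ℕ) (T : ℝ) (c0 : Idx → ℂ), 0 < T → (∀ k, k ∉ box N → c0 k = 0) →
  ∃ c, Sol D N T c0 c

def S_EN : Prop := ∀ (H : Type) [NormedAddCommGroup H] [InnerProductSpace ℂ H] [CompleteSpace H]
  (D : Dat H) (N : ℕ) (T : ℝ) (c0 : Idx → ℂ) (c : ℝ → Idx → ℂ), 0 < T → Sol D N T c0 c →
  (∀ t ∈ Icc (0 : ℝ) T, en N (c t) ≤ en N c0 * Real.exp (-(2 * (D.n - 2) * Real.pi ^ 2 * t))) ∧
  ∫ t in (0 : ℝ)..T, di N (c t) ≤ en N c0 / (2 * (D.n - 2))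

/-- convergence of a sequence of Galerkin solutions, coefficient by coefficient -/
def Conv {H : Type} [NormedAddCommGroup H] [InnerProductSpace ℂ H] [CompleteSpace H]
    (D : Dat H) (T : ℝ) (c0 : Idx → ℂ) (Nn : ℕ → ℕ) (cs : ℕ → ℝ → Idx → ℂ)
    (cl : ℝ → Idx → ℂ) : Prop :=
  0 < T ∧ StrictMono Nn ∧ (∀ j, Sol D (Nn j) T c0 (cs j)) ∧
  (∀ k, ContinuousOn (fun t => cl t k) (Icc 0 T)) ∧
  ∀ k, TendstoUniformlyOn (fun j t => cs j t k) (fun t => cl t k) atTop (Icc 0 T)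

def S_COMP : Prop := ∀ (H : Type) [NormedAddCommGroup H] [InnerProductSpace ℂ H] [CompleteSpace H]
  (D : Dat H) (T : ℝ) (c0 : Idx → ℂ) (Nn : ℕ → ℕ) (cs : ℕ → ℝ → Idx → ℂ),
  0 < T → StrictMono Nn → (∀ j, Sol D (Nn j) T c0 (cs j)) →
  ∃ ψ : ℕ → ℕ, StrictMono ψ ∧ ∃ cl, Conv D T c0 (fun j => Nn (ψ j)) (fun j => cs (ψ j)) cl

def S_LIM : Prop := ∀ (H : Type) [NormedAddCommGroup H] [InnerProductSpace ℂ H] [CompleteSpace H]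
  (D : Dat H) (T : ℝ) (c0 : Idx → ℂ) (Nn : ℕ → ℕ) (cs : ℕ → ℝ → Idx → ℂ) (cl : ℝ → Idx → ℂ),
  Conv D T c0 Nn cs cl →
  (∀ᵐ t ∂(volume.restrict (Icc 0 T)), Summable fun k => m2 k ^ 2 * ‖cl t k‖ ^ 2) ∧
  IntegrableOn (fun t => ∑' k, m2 k ^ 2 * ‖cl t k‖ ^ 2) (Icc 0 T) ∧
  (∀ w : Idx → ℂ, (∀ k, ‖w k‖ ≤ m2 k) →
    AEStronglyMeasurable (fun t => smI D w (cl t)) (volume.restrict (Icc 0 T))) ∧
  Tendsto (fun j => ∫ t in Icc 0 T, ‖sm D (box (Nn j)) ka (cs j t) - smI D ka (cl t)‖ ^ 2)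
    atTop (𝓝 0) ∧
  Tendsto (fun j => ∫ t in Icc 0 T, ‖sm D (box (Nn j)) kb (cs j t) - smI D kb (cl t)‖ ^ 2)
    atTop (𝓝 0)

def S_LEQ : Prop := ∀ (H : Type) [NormedAddCommGroup H] [InnerProductSpace ℂ H] [CompleteSpace H]
  (D : Dat H) (T : ℝ) (c0 : Idx → ℂ) (Nn : ℕ → ℕ) (cs : ℕ → ℝ → Idx → ℂ) (cl : ℝ → Idx → ℂ),
  Conv D T c0 Nn cs cl →
  ∀ k, ∀ t ∈ Icc (0 : ℝ) T,
    cl t k = c0 k + ∫ s in (0 : ℝ)..t, (inner ℂ (D.e k : H) (VI D (cl s)) : ℂ)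

def S_STR : Prop := ∀ (H : Type) [NormedAddCommGroup H] [InnerProductSpace ℂ H] [CompleteSpace H]
  (D : Dat H) (T : ℝ) (c0 : Idx → ℂ) (Nn : ℕ → ℕ) (cs : ℕ → ℝ → Idx → ℂ) (cl : ℝ → Idx → ℂ),
  Conv D T c0 Nn cs cl →
  ∃ ψ : ℕ → ℕ, StrictMono ψ ∧ Tendsto
    (fun j => ∫ t in Icc 0 T, ‖VN D (box (Nn (ψ j))) (cs (ψ j) t) - VI D (cl t)‖ ^ 2)
    atTop (𝓝 0)

def S_TAIL : Prop := ∀ (H : Type) [NormedAddCommGroup H] [InnerProductSpace ℂ H] [CompleteSpace H]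
  (D : Dat H) (T : ℝ) (c0 : Idx → ℂ) (Nn : ℕ → ℕ) (cs : ℕ → ℝ → Idx → ℂ),
  0 < T → StrictMono Nn → (∀ j, Sol D (Nn j) T c0 (cs j)) →
  ∃ ψ : ℕ → ℕ, StrictMono ψ ∧ Tendsto
    (fun j => ∫ t in Icc 0 T, ‖VN D (box (Nn (ψ j))) (cs (ψ j) t)
      - pr D (box (Nn (ψ j))) (VN D (box (Nn (ψ j))) (cs (ψ j) t))‖ ^ 2) atTop (𝓝 0)

/-! ### the torus -/

/-- admissible coefficients -/
structure Cf (s : ℂ × ℂ → ℂ) (m : ℂ × ℂ → ℝ) (n : ℝ) : Prop where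
  hn : 2 < n
  hs : ∀ F, ‖s F‖ ≤ 1
  hm : ∀ F, n ≤ m F
  hM : ∃ M : ℝ, ∀ F, m F ≤ M
  sl : ∃ L : ℝ, ∀ F F', ‖s F - s F'‖ ≤ L * ‖F - F'‖
  ml : ∃ L : ℝ, ∀ F F', |m F - m F'| ≤ L * ‖F - F'‖

/-- the velocity field -/
noncomputable def Vg (s : ℂ × ℂ → ℂ) (m : ℂ × ℂ → ℝ) (F : ℂ × ℂ) (p q r : ℂ) : ℂ :=
  (m F : ℂ) * q + s F * p + (starRingEnd ℂ) (s F) * r

/-- the velocity at a trigonometric polynomial -/
noncomputable def Vh (s : ℂ × ℂ → ℂ) (m : ℂ × ℂ → ℝ) (Λ : Finset Idx) (c : Idx → ℂ) (x : V) : ℂ :=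
  Vg s m (gd Λ c x) (pp Λ c x) (qq Λ c x) (rr Λ c x)

def S_CONC : Prop := ∀ (s : ℂ × ℂ → ℂ) (m : ℂ × ℂ → ℝ) (n : ℝ), Cf s m n →
  ∃ (H : Type) (_ : NormedAddCommGroup H) (_ : InnerProductSpace ℂ H) (_ : CompleteSpace H)
    (D : Dat H), D.n = n ∧
    (∀ (Λ : Finset Idx) (c : Idx → ℂ) (k : Idx), (inner ℂ (D.e k : H) (VN D Λ c) : ℂ)
      = ∫ x in Icc (0 : V) 1, (starRingEnd ℂ) (ek k x) * Vh s m Λ c x) ∧
    (∀ (Λ Λ' : Finset Idx) (c : Idx → ℂ), ‖VN D Λ c - pr D Λ' (VN D Λ c)‖ ^ 2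
      = ∫ x in Icc (0 : V) 1, ‖Vh s m Λ c x - ∑ k ∈ Λ',
        (∫ y in Icc (0 : V) 1, (starRingEnd ℂ) (ek k y) * Vh s m Λ c y) * ek k x‖ ^ 2)

/-- the flow theorem at `F_0 = 0` -/
def S_FLOWV : Prop := ∀ (s : ℂ × ℂ → ℂ) (m : ℂ × ℂ → ℝ) (n : ℝ), Cf s m n →
  ∀ (w : ℂ × ℂ → ℝ), ContDiff ℝ 2 w →
  (∃ K : ℝ, ∀ F, ‖fderiv ℝ (fderiv ℝ w) F‖ ≤ K) → w 0 = 0 → fderiv ℝ w 0 = 0 →
  (∀ (N : ℕ) (c : Idx → ℂ), 0 ≤ ∫ x in Icc (0 : V) 1, DIV w (gd (box N) c x) (pp (box N) c x)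
    (qq (box N) c x) (rr (box N) c x) (Vh s m (box N) c x)) → QC0 w

/-- quasiconvexity at `F0`, for gradients of trigonometric polynomials -/
def QCF (w : ℂ × ℂ → ℝ) (F0 : ℂ × ℂ) : Prop :=
  ∀ (N : ℕ) (c : Idx → ℂ), w F0 ≤ ∫ x in Icc (0 : V) 1, w (F0 + gd (box N) c x)

/-- the flow theorem at every `F_0` -/
def S_FLOWF : Prop := ∀ (s : ℂ × ℂ → ℂ) (m : ℂ × ℂ → ℝ) (n : ℝ), Cf s m n →
  ∀ (w : ℂ × ℂ → ℝ), ContDiff ℝ 2 w → (∃ K : ℝ, ∀ F, ‖fderiv ℝ (fderiv ℝ w) F‖ ≤ K) →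
  ∀ F0 : ℂ × ℂ,
  (∀ (N : ℕ) (c : Idx → ℂ), 0 ≤ ∫ x in Icc (0 : V) 1, DIV w (F0 + gd (box N) c x)
    (pp (box N) c x) (qq (box N) c x) (rr (box N) c x)
    (Vg s m (F0 + gd (box N) c x) (pp (box N) c x) (qq (box N) c x) (rr (box N) c x))) →
  QCF w F0

/-- exact forms integrate to zero, at every `F_0` -/
def S_NULLF : Prop := ∀ (e : ℂ × ℂ → ℝ), ContDiff ℝ 1 e → ∀ (F0 : ℂ × ℂ) (Λ : Finset Idx)
  (c : Idx → ℂ),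
  ∫ x in Icc (0 : V) 1, OMa e (F0 + gd Λ c x) (pp Λ c x) (qq Λ c x) (rr Λ c x) = 0 ∧
  ∫ x in Icc (0 : V) 1, OMb e (F0 + gd Λ c x) (pp Λ c x) (qq Λ c x) (rr Λ c x) = 0

end Pool.Agent.W360.BQ
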