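import Pool.Agent.W440.BQ.Ode
import Pool.Agent.W400.BQV.En
import Pool.Agent.W91.BQ.Comp
import Pool.Agent.W400.BQV.Lim
import Pool.Agent.W397.BQ.Leq
import Pool.Agent.W400.BQV.Str
import Pool.Agent.W400.BQV.Tail
import Pool.Agent.W440.BQ.Flow
import Pool.Agent.W400.BQV.Nullf
import Pool.Agent.W439.BQ.FlowF
import Pool.Agent.W360.BQ.Conc
import Pool.Agent.W411.IW.Chain
import Pool.Agent.W411.IW.Pars
import Pool.Agent.W116.IW.Ibp

/-! Project BQ, block V: assembly of the flow theorem. -/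

set_option autoImplicit false

namespace Pool.Agent.W360.BQ.All

open Pool.Agent.W360.BQ

theorem en : S_EN := Pool.Agent.W400.BQV.En.main
theorem comp : S_COMP := Pool.Agent.W91.BQ.Comp.main en
theorem lim : S_LIM := Pool.Agent.W400.BQV.Lim.main en
theorem leq : S_LEQ := Pool.Agent.W397.BQ.Leq.main en lim
theorem str : S_STR := Pool.Agent.W400.BQV.Str.main en lim leq
theorem tail : S_TAIL := Pool.Agent.W400.BQV.Tail.main en comp lim str
theorem flowv : S_FLOWV := Pool.Agent.W440.BQ.Flow.main Pool.Agent.W440.BQ.Ode.main en tail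
  Pool.Agent.W360.BQ.Conc.main (Pool.Agent.W411.IW.Chain.main Pool.Agent.W116.IW.Ibp.main)
  Pool.Agent.W411.IW.Pars.main
theorem flowf : S_FLOWF := Pool.Agent.W439.BQ.FlowF.main flowv
theorem nullf : S_NULLF := Pool.Agent.W400.BQV.Nullf.main


end Pool.Agent.W360.BQ.All
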